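import Pool.Agent.U435.SP.Bundle2
import Pool.Agent.U435.SP.Num

/-!
# Split monomorphisms of Chow motives and extensions of the base field
-/

set_option autoImplicit false
set_option linter.unusedSectionVars false
set_option linter.checkUnivs false

open CategoryTheory Limits MonoidalCategory Pretriangulated

namespace Pool.Agent.U735.SM

open Pool.Agent.U435.SP Pool.Agent.U735.CV Pool.Agent.Y116.MT

universe v u v' u' w

variable {E : Type w} [Field E] {T : Coefficients.{v', u', w} E}

/-- The base change `b` from the motives `M` over the field `k` to the motives `N` over an extension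
`K` of `k`: a faithful triangulated tensor functor, compatible with the realisations, such that
(these are known facts) motives, cycles and classes over `K` spread out over smooth connected
`k`-varieties. -/
structure BaseChangeData (M N : BaseMotives.{v, u} T) where
  /-- the base change -/
  b : M.C ⥤ N.C
  [monoidal : b.Monoidal]
  [additive : b.Additive]
  [commShift : b.CommShift ℤ]
  [triangulated : b.IsTriangulated]
  [faithful : b.Faithful]
  /-- the realisation is compatible with base change -/
  comparison : b ⋙ N.F ≅ M.F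
  spreadsOut : SpreadsOut M.F N.F
  spreading : IsSpreading b M.Chow N.Chow M.F N.F

attribute [instance] BaseChangeData.monoidal BaseChangeData.additive BaseChangeData.commShift
  BaseChangeData.triangulated BaseChangeData.faithful

/-- A morphism is a split monomorphism if its image under a faithful triangulated functor is. -/
lemma splitMono_of_map {C : Type u} [Category.{v} C] [Preadditive C] [HasZeroObject C]
    [HasShift C ℤ] [∀ n : ℤ, (shiftFunctor C n).Additive] [Pretriangulated C]
    {C' : Type u} [Category.{v} C'] [Preadditive C'] [HasZeroObject C']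
    [HasShift C' ℤ] [∀ n : ℤ, (shiftFunctor C' n).Additive] [Pretriangulated C']
    (b : C ⥤ C') [b.Additive] [b.CommShift ℤ] [b.IsTriangulated] [b.Faithful] {P Q : C}
    (f : P ⟶ Q) (h : IsSplitMono (b.map f)) : IsSplitMono f := by
  obtain ⟨Z, g, d, hT⟩ := distinguished_cocone_triangle f
  have hT' := b.map_distinguished _ hT
  have h1 : Mono (b.mapTriangle.obj (Triangle.mk f g d)).mor₁ := by
    change Mono (b.map f)
    infer_instance
  have h2 := Triangle.mor₃_eq_zero_of_mono₁ _ hT' h1
  have h3 : b.map d ≫ (b.commShiftIso (1 : ℤ)).hom.app P = 0 := h2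
  have h4 : b.map d = 0 := by
    rw [← cancel_mono ((b.commShiftIso (1 : ℤ)).hom.app P), h3, zero_comp]
  have h5 : d = 0 := b.map_injective (by rw [h4, Functor.map_zero])
  have : Mono f := Triangle.mono₁ _ hT h5
  exact isSplitMono_of_mono f

/-- Split monomorphisms and numerical equivalence. -/
lemma homEqualsNum_of_split (M : BaseMotives.{v, u} T) (h : ReflectsSplitMono M.Chow M.F) :
    HomEqualsNum M.Chow M.F := by
  intro P z hP hz
  by_contra hne
  have h0 : Functor.LaxMonoidal.ε M.F ≫ M.F.map z ≠ 0 := by
    intro h1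
    apply hne
    rw [← cancel_epi (Functor.LaxMonoidal.ε M.F), h1, comp_zero]
  obtain ⟨r, hr⟩ := T.vectorLike.split _ h0
  have h1 : IsSplitMono (M.F.map z) := by
    refine ⟨⟨⟨r ≫ Functor.LaxMonoidal.ε M.F, ?_⟩⟩⟩
    rw [← cancel_epi (Functor.LaxMonoidal.ε M.F), ← Category.assoc, ← Category.assoc, hr,
      Category.id_comp, Category.comp_id]
  obtain ⟨⟨s⟩⟩ := h _ _ z M.isChowClass.unit hP h1
  have h2 : (𝟙 (𝟙_ M.C) : 𝟙_ M.C ⟶ 𝟙_ M.C) = 0 := by rw [← s.id, hz]
  apply hne
  rw [← Category.id_comp z, h2, zero_comp, Functor.map_zero]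

/-- From cycles to classes. -/
lemma homEqualsNum_of_numIsHom (M : BaseMotives.{v, u} T) (h : NumIsHom M.Chow M.F) :
    HomEqualsNum M.Chow M.F := by
  intro P z hP hz
  apply map_zero_of_dualCycle (Q := Pᘁ) M.F z
  refine h _ _ (M.isChowClass.dual hP) fun v => ?_
  rw [dualCycle_test, ← Category.assoc, ← Category.assoc, Category.assoc z]
  have h1 := hz ((λ_ P).inv ≫ v ▷ P ≫ ε_ P Pᘁ)
  simpa using h1

/-- Homological and numerical equivalence over `K`. -/
lemma homEqualsNum_base [CharZero E] {M N : BaseMotives.{v, u} T} (B : BaseChangeData M N)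
    (hn : HomEqualsNum M.Chow M.F) : HomEqualsNum N.Chow N.F := by
  refine homEqualsNum_of_numIsHom N fun Q z hQ hz => ?_
  have h1 : (𝟙 (𝟙_ N.C) : 𝟙_ N.C ⟶ 𝟙_ N.C) ≠ 0 := unit_ne N.F T.vectorLike
  obtain ⟨U, Q₀, z₀, hU, hQ₀, i, hi⟩ := B.spreading.cycles Q z hQ
  have h2 := map_zero_of_numTrivial M.unit_end hn M.W h1 U hU hQ₀ z₀ i z hi hz
  have h3 : N.F.map (i.hom ≫ z) = 0 := by
    rw [hi, Functor.map_comp, h2, zero_comp]
  rw [Functor.map_comp] at h3
  rw [← cancel_epi (N.F.map i.hom), h3, comp_zero]

/-- Split monomorphisms of Chow motives over `k` and over `K`. -/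
theorem splitMono_iff [CharZero E] {M N : BaseMotives.{v, u} T} (B : BaseChangeData M N)
    (W : Weights M.Chow M.F E) :
    ReflectsSplitMono N.Chow N.F ↔ ReflectsSplitMono M.Chow M.F := by
  constructor
  · intro h P Q f hP hQ hf
    refine splitMono_of_map B.b f (h _ _ _ (B.spreading.base hP) (B.spreading.base hQ) ?_)
    have h1 : N.F.map (B.b.map f) ≫ B.comparison.hom.app Q =
        B.comparison.hom.app P ≫ M.F.map f := B.comparison.hom.naturality f
    refine ⟨⟨⟨B.comparison.hom.app Q ≫ retraction (M.F.map f) ≫ B.comparison.inv.app P, ?_⟩⟩⟩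
    rw [← Category.assoc, h1, Category.assoc, IsSplitMono.id_assoc]
    simp
  · intro h
    have h1 : M.F.ReflectsIsomorphisms :=
      conservative_of_splitMono M.isChowClass.summand M.isChowClass.generate W h
    have h2 : N.F.ReflectsIsomorphisms := (conservative_iff B.spreadsOut B.b B.comparison).2 h1
    exact split_of_iso (fun P Q f _ _ hf => isIso_of_reflects_iso f N.F)
      (homEqualsNum_base B (homEqualsNum_of_split M h))

/-- If split monomorphisms are reflected, so are isomorphisms. -/
lemma reflectsIso_of_split (M : BaseMotives.{v, u} T) (h : ReflectsSplitMono M.Chow M.F) :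
    ReflectsIso M.Chow M.F := by
  intro P Q f hP hQ hf
  obtain ⟨⟨s⟩⟩ := h P Q f hP hQ inferInstance
  have h1 : M.F.map s.retraction = inv (M.F.map f) := by
    rw [← cancel_epi (M.F.map f), ← Functor.map_comp, s.id, CategoryTheory.Functor.map_id,
      IsIso.hom_inv_id]
  obtain ⟨⟨t⟩⟩ := h Q P s.retraction hQ hP (by rw [h1]; infer_instance)
  have h2 : t.retraction = f := by
    rw [← Category.id_comp t.retraction, ← s.id, Category.assoc, t.id, Category.comp_id]
  have h3 : s.retraction ≫ t.retraction = 𝟙 Q := t.id
  rw [h2] at h3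
  exact ⟨s.retraction, s.id, h3⟩

/-- The three statements are equivalent. -/
theorem tfae [CharZero E] {M N : BaseMotives.{v, u} T} (B : BaseChangeData M N)
    (W : Weights M.Chow M.F E) :
    List.TFAE [ReflectsSplitMono N.Chow N.F, ReflectsSplitMono M.Chow M.F,
      ReflectsIso M.Chow M.F ∧ HomEqualsNum M.Chow M.F] := by
  tfae_have 1 ↔ 2 := splitMono_iff B W
  tfae_have 2 → 3 := fun h => ⟨reflectsIso_of_split M h, homEqualsNum_of_split M h⟩
  tfae_have 3 → 2 := fun h => split_of_iso h.1 h.2
  tfae_finish

end Pool.Agent.U735.SM
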